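import Pool.Agent.W710.DP.Stm2

/-! # DP-BIJ: small perturbations of the identity of the plane are diffeomorphisms -/

set_option autoImplicit false

namespace Pool.Agent.W925.DP

open Pool.Agent.W710.DP

theorem t_bij : S_bij := by
  intro h hh hl
  -- injectivity
  have hlow : ∀ p q : ℝ × ℝ, ‖p - q‖ ≤ 2 * ‖(p + h p) - (q + h q)‖ := by
    intro p q
    have h1 := hl p q
    have h2 : p - q = ((p + h p) - (q + h q)) - (h p - h q) := by abel
    have h3 : ‖p - q‖ ≤ ‖(p + h p) - (q + h q)‖ + ‖h p - h q‖ := by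
      conv_lhs => rw [h2]
      exact norm_sub_le _ _
    linarith
  have hinj : Function.Injective (fun p : ℝ × ℝ => p + h p) := by
    intro p q hpq
    have h1 := hlow p q
    have h2 : (p + h p) - (q + h q) = 0 := sub_eq_zero.2 hpq
    rw [h2, norm_zero, mul_zero] at h1
    exact sub_eq_zero.1 (norm_le_zero_iff.1 h1)
  have hlip : LipschitzWith (1 / 2) h := by
    refine LipschitzWith.of_dist_le_mul fun p q => ?_
    rw [dist_eq_norm, dist_eq_norm]
    simpa using hl p q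
  have hsurj : Function.Surjective (fun p : ℝ × ℝ => p + h p) := by
    intro y
    have hc : ContractingWith (1 / 2) (fun p : ℝ × ℝ => y - h p) := by
      refine ⟨by
        rw [← NNReal.coe_lt_coe]
        norm_num, ?_⟩
      refine LipschitzWith.of_dist_le_mul fun p q => ?_
      rw [dist_eq_norm, dist_eq_norm]
      have h1 : y - h p - (y - h q) = h q - h p := by abel
      rw [h1]
      have := hl q p
      rw [norm_sub_rev q p] at this
      simpa using this
    refine ⟨hc.fixedPoint, ?_⟩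
    have := hc.fixedPoint_isFixedPt
    change hc.fixedPoint + h hc.fixedPoint = y
    have h2 : y - h hc.fixedPoint = hc.fixedPoint := this
    calc hc.fixedPoint + h hc.fixedPoint = (y - h hc.fixedPoint) + h hc.fixedPoint := by rw [h2]
      _ = y := by abel
  let F : (ℝ × ℝ) ≃ (ℝ × ℝ) := Equiv.ofBijective _ ⟨hinj, hsurj⟩
  have hF : ∀ p, F p = p + h p := fun p => rfl
  have hFc : Continuous F := by
    change Continuous (fun p : ℝ × ℝ => p + h p)
    exact continuous_id.add hh.continuous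
  have hFs : Continuous F.symm := by
    have : LipschitzWith 2 F.symm := by
      refine LipschitzWith.of_dist_le_mul fun p q => ?_
      have := hlow (F.symm p) (F.symm q)
      rw [← hF, ← hF, Equiv.apply_symm_apply, Equiv.apply_symm_apply] at this
      rw [dist_eq_norm, dist_eq_norm]
      simpa using this
    exact this.continuous
  let Fh : (ℝ × ℝ) ≃ₜ (ℝ × ℝ) := ⟨F, hFc, hFs⟩
  refine ⟨F, hF, ?_⟩
  have hFd : ContDiff ℝ ((⊤ : ℕ∞) : WithTop ℕ∞) (fun p : ℝ × ℝ => p + h p) :=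
    contDiff_id.add hh
  rw [contDiff_iff_contDiffAt]
  intro y
  -- the derivative at `F.symm y`
  set a := F.symm y with ha
  have hd : HasFDerivAt (fun p : ℝ × ℝ => p + h p)
      (ContinuousLinearMap.id ℝ (ℝ × ℝ) + fderiv ℝ h a) a :=
    (hasFDerivAt_id a).add ((hh.differentiable (by simp)) a).hasFDerivAt
  have hn : ‖fderiv ℝ h a‖ ≤ 1 / 2 := by
    have := norm_fderiv_le_of_lipschitz ℝ hlip (x₀ := a)
    simpa using this
  have hker : Function.Injective (ContinuousLinearMap.id ℝ (ℝ × ℝ) + fderiv ℝ h a) := by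
    rw [injective_iff_map_eq_zero]
    intro v hv
    have h1 : v = - fderiv ℝ h a v := by
      have : v + fderiv ℝ h a v = 0 := hv
      exact eq_neg_of_add_eq_zero_left this
    have h2 : ‖v‖ ≤ 1 / 2 * ‖v‖ := by
      calc ‖v‖ = ‖fderiv ℝ h a v‖ := by
            conv_lhs => rw [h1, norm_neg]
        _ ≤ ‖fderiv ℝ h a‖ * ‖v‖ := ContinuousLinearMap.le_opNorm _ _
        _ ≤ 1 / 2 * ‖v‖ := mul_le_mul_of_nonneg_right hn (norm_nonneg _)
    have h3 : ‖v‖ ≤ 0 := by linarith
    exact norm_le_zero_iff.1 h3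
  let L : (ℝ × ℝ) ≃L[ℝ] (ℝ × ℝ) :=
    (LinearEquiv.ofInjectiveEndo
      ((ContinuousLinearMap.id ℝ (ℝ × ℝ) + fderiv ℝ h a : (ℝ × ℝ) →L[ℝ] (ℝ × ℝ)) :
        (ℝ × ℝ) →ₗ[ℝ] (ℝ × ℝ)) hker).toContinuousLinearEquiv
  have hL : (L : (ℝ × ℝ) →L[ℝ] (ℝ × ℝ)) = ContinuousLinearMap.id ℝ (ℝ × ℝ) + fderiv ℝ h a := by
    ext <;> rfl
  have h5 : HasFDerivAt (fun p : ℝ × ℝ => p + h p) (L : (ℝ × ℝ) →L[ℝ] (ℝ × ℝ)) a := by
    rw [hL]
    exact hd
  have h6 : ContDiffAt ℝ ((⊤ : ℕ∞) : WithTop ℕ∞) (Fh.toOpenPartialHomeomorph.symm) y :=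
    Fh.toOpenPartialHomeomorph.contDiffAt_symm (f₀' := L) (Set.mem_univ y) h5 hFd.contDiffAt
  exact h6

end Pool.Agent.W925.DP
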