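import Pool.Agent.W710.DP.Stm2

/-! # DP-COMP: composition of realisations -/

set_option autoImplicit false

namespace Pool.Agent.W925.DP

open Pool.Agent.W710.DP

theorem orb_append : ∀ (v w : List Letter) (x s X S A X' S' A' : ℝ), Orb v x s X S A →
    Orb w X S X' S' A' → Orb (v ++ w) x s X' S' (A + A')
  | [], w, x, s, X, S, A, X', S', A', h, h' => by
      obtain ⟨rfl, rfl, rfl⟩ := h
      simpa using h'
  | l :: v, w, x, s, X, S, A, X', S', A', h, h' => by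
      obtain ⟨x1, s1, h1, h2, h3⟩ := h
      refine ⟨x1, s1, h1, h2, ?_⟩
      have := orb_append v w _ _ _ _ _ _ _ _ h3 h'
      have e : A + A' - (s1 * (x1 - x) - l.G x s1) = A - (s1 * (x1 - x) - l.G x s1) + A' := by
        ring
      rw [e]
      exact this

theorem t_comp : S_comp := by
  intro v w f g D D' ⟨c1, hc1, h1⟩ ⟨c2, hc2, h2⟩
  refine ⟨min c1 c2, lt_min hc1 hc2, ?_⟩
  intro α β x s x₁ s₁ h
  obtain ⟨X, S, A, X₁, S₁, hX⟩ := h1 α β x s x₁ s₁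
    (fun t ht => ⟨(h t ht).1, (h t ht).2.1, (h t ht).2.2.1, (h t ht).2.2.2.1⟩)
  obtain ⟨X', S', A', X₁', S₁', hX'⟩ := h2 α β X S X₁ S₁
    (fun t ht => ⟨(hX t ht).1, (hX t ht).2.1, (hX t ht).2.2.1, by
      rw [(hX t ht).2.2.2.2.2.1]
      exact (h t ht).2.2.2.2⟩)
  refine ⟨X', S', fun t => A t + A' t, X₁', S₁', fun t ht => ?_⟩
  obtain ⟨a1, a2, a3, a4, a5, a6, a7⟩ := hX t ht
  obtain ⟨b1, b2, b3, b4, b5, b6, b7⟩ := hX' t ht
  refine ⟨b1, b2, b3, ?_, orb_append _ _ _ _ _ _ _ _ _ _ a5 b5, ?_, ?_⟩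
  · have := a4.add b4
    have e : S' t * X₁' t - s t * x₁ t = S t * X₁ t - s t * x₁ t + (S' t * X₁' t - S t * X₁ t) := by
      ring
    rw [e]
    exact this
  · rw [b6, a6]
  · intro hs
    obtain ⟨e1, e2, e3⟩ := a7 (lt_of_lt_of_le hs (min_le_left _ _))
    obtain ⟨e4, e5, e6⟩ := b7 (by rw [e2]; exact lt_of_lt_of_le hs (min_le_right _ _))
    exact ⟨by rw [e4, e1], by rw [e5, e2], by simp only [e3, e6, add_zero]⟩

end Pool.Agent.W925.DP
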