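import Pool.Agent.W710.DP.Stm2

/-! # DP-XFER: transfer from `Fin 2 → ℝ` to `ℂ` -/

set_option autoImplicit false

namespace Pool.Agent.W925.DP

open Pool.Agent.W710.DP

/-- The linear identification. -/
noncomputable def ee : ℂ ≃L[ℝ] (Fin 2 → ℝ) := Complex.basisOneI.equivFun.toContinuousLinearEquiv

/-- area preserving diffeomorphisms of `Fin 2 → ℝ` -/
def AP2 (f : Equiv.Perm (Fin 2 → ℝ)) : Prop :=
  ContDiff ℝ ((⊤ : ℕ∞) : WithTop ℕ∞) (⇑f) ∧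
        ContDiff ℝ ((⊤ : ℕ∞) : WithTop ℕ∞) (⇑(Equiv.symm f)) ∧
        ∀ x : Fin 2 → ℝ,
          LinearMap.det ((fderiv ℝ (⇑f) x : (Fin 2 → ℝ) →L[ℝ] (Fin 2 → ℝ)) :
            (Fin 2 → ℝ) →ₗ[ℝ] (Fin 2 → ℝ)) = 1

/-- conjugation -/
noncomputable def cj : Equiv.Perm ℂ ≃* Equiv.Perm (Fin 2 → ℝ) :=
  Equiv.permCongrHom ee.toLinearEquiv.toEquiv

theorem cj_apply (f : Equiv.Perm ℂ) (x : Fin 2 → ℝ) : cj f x = ee (f (ee.symm x)) := rfl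

theorem cj_symm_apply (f : Equiv.Perm (Fin 2 → ℝ)) (x : ℂ) : cj.symm f x = ee.symm (f (ee x)) :=
  rfl

theorem det_cj (A : ℂ →L[ℝ] ℂ) :
    LinearMap.det ((((ee : ℂ →L[ℝ] (Fin 2 → ℝ)).comp A).comp
      (ee.symm : (Fin 2 → ℝ) →L[ℝ] ℂ) : (Fin 2 → ℝ) →L[ℝ] (Fin 2 → ℝ)) :
      (Fin 2 → ℝ) →ₗ[ℝ] (Fin 2 → ℝ)) = LinearMap.det (A : ℂ →ₗ[ℝ] ℂ) := by
  rw [← LinearMap.det_conj (A : ℂ →ₗ[ℝ] ℂ) ee.toLinearEquiv]
  rfl

theorem fd (f : Equiv.Perm ℂ) (hf : Differentiable ℝ f) (x : Fin 2 → ℝ) :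
    fderiv ℝ (⇑(cj f)) x = ((ee : ℂ →L[ℝ] (Fin 2 → ℝ)).comp (fderiv ℝ (⇑f) (ee.symm x))).comp
      (ee.symm : (Fin 2 → ℝ) →L[ℝ] ℂ) := by
  have h1 : HasFDerivAt (fun x : Fin 2 → ℝ => ee (f (ee.symm x)))
      (((ee : ℂ →L[ℝ] (Fin 2 → ℝ)).comp (fderiv ℝ (⇑f) (ee.symm x))).comp
      (ee.symm : (Fin 2 → ℝ) →L[ℝ] ℂ)) x := by
    have a := ee.symm.hasFDerivAt (x := x)
    have b := (hf (ee.symm x)).hasFDerivAt
    have c := ee.hasFDerivAt (x := f (ee.symm x))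
    exact (c.comp (ee.symm x) b).comp x a
  exact h1.fderiv

theorem ap_iff (f : Equiv.Perm ℂ) (hf : AP f) : AP2 (cj f) := by
  obtain ⟨h1, h2, h3⟩ := hf
  refine ⟨?_, ?_, ?_⟩
  · exact ee.contDiff.comp (h1.comp ee.symm.contDiff)
  · exact ee.contDiff.comp (h2.comp ee.symm.contDiff)
  · intro x
    rw [fd f (h1.differentiable (by simp)) x, det_cj, h3]

theorem ap_of (f : Equiv.Perm ℂ) (hf : AP2 (cj f)) : AP f := by
  obtain ⟨h1, h2, h3⟩ := hf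
  have e1 : ContDiff ℝ ((⊤ : ℕ∞) : WithTop ℕ∞) (⇑f) := by
    have := ee.symm.contDiff.comp (h1.comp ee.contDiff) (𝕜 := ℝ) (n := ((⊤ : ℕ∞) : WithTop ℕ∞))
    convert this using 1
    ext z
    simp [cj_apply]
  have e2 : ContDiff ℝ ((⊤ : ℕ∞) : WithTop ℕ∞) (⇑f.symm) := by
    have := ee.symm.contDiff.comp (h2.comp ee.contDiff) (𝕜 := ℝ) (n := ((⊤ : ℕ∞) : WithTop ℕ∞))
    convert this using 1
    ext z
    have : (cj f).symm = cj f.symm := rfl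
    simp [this, cj_apply]
  refine ⟨e1, e2, fun z => ?_⟩
  have := h3 (ee z)
  rw [fd f (e1.differentiable (by simp)), det_cj] at this
  simpa using this

theorem t_xfer : S_xfer := by
  intro hp f hf
  have h1 : cj f ∈ Subgroup.closure {c : Equiv.Perm (Fin 2 → ℝ) |
      ∃ a b : Equiv.Perm (Fin 2 → ℝ), AP2 a ∧ AP2 b ∧ c = a * b * a⁻¹ * b⁻¹} :=
    hp (cj f) (ap_iff f hf)
  have h2 : Subgroup.closure {c : Equiv.Perm (Fin 2 → ℝ) |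
      ∃ a b : Equiv.Perm (Fin 2 → ℝ), AP2 a ∧ AP2 b ∧ c = a * b * a⁻¹ * b⁻¹} ≤
      (Subgroup.closure {c : Equiv.Perm ℂ | ∃ a b : Equiv.Perm ℂ, AP a ∧ AP b ∧
    c = a * b * a⁻¹ * b⁻¹}).map cj.toMonoidHom := by
    rw [Subgroup.closure_le]
    rintro c ⟨a, b, ha, hb, rfl⟩
    refine ⟨cj.symm a * cj.symm b * (cj.symm a)⁻¹ * (cj.symm b)⁻¹,
      Subgroup.subset_closure ⟨cj.symm a, cj.symm b, ap_of _ ?_, ap_of _ ?_, rfl⟩, ?_⟩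
    · rwa [MulEquiv.apply_symm_apply]
    · rwa [MulEquiv.apply_symm_apply]
    · simp
  obtain ⟨f', hf', e⟩ := h2 h1
  have : f' = f := cj.injective e
  rwa [this] at hf'

end Pool.Agent.W925.DP
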